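import Pool.Agent.H78.DP.Forest
import Pool.Agent.H78.DP.SeqC

/-!
The pair (Diff, Prod) does not have the Ramsey property: there is a partition of the positive
integers into 256 cells such that no cell contains all differences and all products of the pairs of
terms of a strictly increasing sequence of positive integers.
-/

set_option autoImplicit false

namespace Pool.Agent.Results.MP_741d9e_co.DiffProdNotRamsey

/-- The sets `C 0, ..., C (r - 1)` of integers form a partition of the set of positive integers into
`r` cells. -/
def IsPartition {r : ℕ} (C : Fin r → Set ℤ) : Prop :=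
  (∀ i j, i ≠ j → C i ∩ C j = ∅) ∧ ⋃ i, C i = {z : ℤ | 0 < z}

/-- A set of integers is monochromatic if it is contained in a single cell. -/
def Monochromatic {r : ℕ} (C : Fin r → Set ℤ) (S : Set ℤ) : Prop := ∃ i, S ⊆ C i

/-- The difference `Diff(x,y) = y - x`. -/
def Diff (x y : ℤ) : ℤ := y - x

/-- The product `Prod(x,y) = xy`. -/
def Prod (x y : ℤ) : ℤ := x * y

/-- The pair `(f, g)` has the Ramsey property for partitions into `r` cells: for every partition of
the positive integers into `r` cells there is a strictly increasing sequence `a` of positive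
integers such that the set of all `f(a_n, a_m)` and all `g(a_n, a_m)`, `n < m`, is monochromatic.
(The pair has the Ramsey property of the problem iff this holds for every `r ≥ 1`.) -/
def HasRamseyProperty (r : ℕ) (f g : ℤ → ℤ → ℤ) : Prop :=
  ∀ C : Fin r → Set ℤ, IsPartition C →
    ∃ a : ℕ → ℤ, StrictMono a ∧ (∀ n, 0 < a n) ∧
      Monochromatic C ({z | ∃ n m, n < m ∧ z = f (a n) (a m)} ∪
        {z | ∃ n m, n < m ∧ z = g (a n) (a m)})

/-- The pair `(Diff, Prod)` does not have the Ramsey property, and 256 cells are enough. -/
theorem result : ¬ HasRamseyProperty 256 Diff Prod := by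
  intro h
  obtain ⟨χ, hχ⟩ := Pool.Agent.H78.DP.exists_colouring
  have hcard : Fintype.card (Bool × Bool × ZMod 4 × ZMod 4 × Bool × Bool) = 256 := by
    simp [ZMod.card]
  let e := Fintype.equivFinOfCardEq hcard
  obtain ⟨a, hmono, hpos, i, hi⟩ := h
    (fun i => {z : ℤ | 0 < z ∧ e (Pool.Agent.H78.DP.col χ z.toNat) = i}) (by
      refine ⟨?_, ?_⟩
      · intro i j hij
        ext z
        simp only [Set.mem_inter_iff, Set.mem_setOf_eq, Set.mem_empty_iff_false, iff_false]
        rintro ⟨⟨-, h1⟩, -, h2⟩
        exact hij (h1.symm.trans h2)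
      · ext z
        simp)
  have hd : ∀ n m, n < m → e (Pool.Agent.H78.DP.col χ (a m - a n).toNat) = i := fun n m hnm =>
    (hi (Or.inl ⟨n, m, hnm, rfl⟩)).2
  have hp : ∀ n m, n < m → e (Pool.Agent.H78.DP.col χ (a n * a m).toNat) = i := fun n m hnm =>
    (hi (Or.inr ⟨n, m, hnm, rfl⟩)).2
  refine Pool.Agent.H78.DP.main χ hχ (a := fun n => (a n).toNat) ?_ ?_ ?_
  · intro n m hnm
    have h1 := hmono hnm
    have h2 := hpos n
    change (a n).toNat < (a m).toNat
    omega
  · have h2 := hpos 0
    change 0 < (a 0).toNat
    omega
  · intro n m n' m' h1 h2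
    apply e.injective
    have h3 : (a m).toNat - (a n).toNat = (a m - a n).toNat := by
      have h4 := hpos n
      have h5 := hpos m
      omega
    have h6 : (a n').toNat * (a m').toNat = (a n' * a m').toNat := by
      rw [Int.toNat_mul (hpos n').le (hpos m').le]
    change e (Pool.Agent.H78.DP.col χ ((a m).toNat - (a n).toNat)) =
      e (Pool.Agent.H78.DP.col χ ((a n').toNat * (a m').toNat))
    rw [h3, h6, hd n m h1, hp n' m' h2]

end Pool.Agent.Results.MP_741d9e_co.DiffProdNotRamsey
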